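import Pool.Agent.H29.FX.TargetsQ

/-!
# MP_7ecdd4_nt, row FCQ: the flows of several derivations, general `p`
-/

set_option autoImplicit false

open Finset MvPolynomial

namespace Pool.Agent.H92.TFX

open Pool.Agent.H29.FX

theorem FCQ_aux (hFOQ : T_FOQ) {n p s : ℕ} (hp : 1 ≤ p)
    (hs : ∀ l : ℕ, l.Prime → l ∣ p → s ≤ l) :
    ∀ (k : ℕ) (D : Fin k → Dr n) (t : Fin k → ZMod (p ^ s)) (x : Fin n → ZMod (p ^ s))
      (f : Pl n), (∀ v, Nl p s (t v)) →
      aeval ((List.finRange k).foldl (fun y i => fl p s (D i) (t i) y) x) f =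
        ∑ α ∈ Fintype.piFinset (fun _ : Fin k => range s),
          (∏ v, t v ^ α v * iv p s (α v)) *
            aeval x ((List.finRange k).foldr (fun i h => (fun g => D i g)^[α i] h) f) := by
  intro k
  induction k with
  | zero =>
    intro D t x f _
    simp
  | succ k ih =>
    intro D t x f ht
    have e1 : ∀ h : Pl n, aeval (fl p s (D 0) (t 0) x) h =
        ∑ m ∈ range s, t 0 ^ m * iv p s m * aeval x ((fun g => D 0 g)^[m] h) := fun h =>
      hFOQ n p s (D 0) (t 0) x h hp hs (ht 0)
    rw [List.finRange_succ, List.foldl_cons, List.foldl_map,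
      ih (fun i => D i.succ) (fun i => t i.succ) (fl p s (D 0) (t 0) x) f fun v => ht v.succ]
    simp only [e1, Finset.mul_sum]
    rw [Finset.sum_comm, ← Finset.sum_product']
    refine Finset.sum_nbij' (fun q => (Fin.cons q.1 q.2 : Fin (k + 1) → ℕ))
      (fun α => (α 0, Fin.tail α)) ?_ ?_ ?_ ?_ ?_
    · rintro ⟨m, β⟩ hq
      rw [Finset.mem_product, Fintype.mem_piFinset] at hq
      rw [Fintype.mem_piFinset]
      intro v
      refine Fin.cases ?_ (fun i => ?_) v
      · simpa using hq.1
      · simpa using hq.2 i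
    · intro α hα
      rw [Fintype.mem_piFinset] at hα
      rw [Finset.mem_product, Fintype.mem_piFinset]
      exact ⟨hα 0, fun v => hα v.succ⟩
    · rintro ⟨m, β⟩ _
      simp
    · intro α _
      simp
    · rintro ⟨m, β⟩ _
      simp only [Fin.prod_univ_succ, Fin.cons_zero, Fin.cons_succ, List.foldr_cons,
        List.foldr_map]
      ring

theorem pf_FCQ (hFOQ : T_FOQ) : T_FCQ := by
  intro n p s D t x f hp hs ht
  exact FCQ_aux hFOQ hp hs n D t x f ht

end Pool.Agent.H92.TFX
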